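import Mathlib

/-!
# MP_32da07_an: the conjectured lower estimates of the Kobayashi distance in Reinhardt domains fail

The bounded complete Reinhardt domain `D = {|z₂| < 1, |z₁| exp (1/(1-|z₂|)) < 1}` with base point `0`
and boundary point `ζ₀ = (0,1)` has `N(ζ₀) = 0`, but along `z_t = (0, 1-t)` the Kobayashi distance is
at most `½ log (2/t)` while `d_D(z_t) ≤ exp (-1/t)`.
-/

open Complex Set Metric Filter Topology MeasureTheory

namespace Pool.Agent.Results.MP_32da07_an.CuspDomain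

/-- `ℂ^n` with its Euclidean norm. -/
abbrev E (n : ℕ) := EuclideanSpace ℂ (Fin n)

/-- Reinhardt sets: invariant under rotations of each coordinate. -/
def Reinhardt {n : ℕ} (D : Set (E n)) : Prop :=
  ∀ z ∈ D, ∀ θ : Fin n → ℝ, WithLp.toLp 2 (fun j => Complex.exp (θ j * I) * z j) ∈ D

/-- Complete Reinhardt sets: with `z` they contain every `x` with `|x_j| ≤ |z_j|` for all `j`. -/
def CompleteReinhardt {n : ℕ} (D : Set (E n)) : Prop :=
  ∀ z ∈ D, ∀ x : E n, (∀ j, ‖x j‖ ≤ ‖z j‖) → x ∈ D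

/-- Continuous plurisubharmonic functions on `D`: the sub-mean value inequality holds on every
closed disc `{z + l v : |l| ≤ 1} ⊆ D` of every complex line. -/
def ContPSH {n : ℕ} (D : Set (E n)) (u : E n → ℝ) : Prop :=
  ContinuousOn u D ∧ ∀ z v : E n, (∀ l : ℂ, ‖l‖ ≤ 1 → z + l • v ∈ D) →
    u z ≤ (2 * Real.pi)⁻¹ * ∫ t in (0:ℝ)..(2 * Real.pi), u (z + Complex.exp (t * I) • v)

/-- Pseudoconvex: there is a continuous plurisubharmonic exhaustion function. -/
def Pseudoconvex {n : ℕ} (D : Set (E n)) : Prop :=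
  ∃ u : E n → ℝ, ContPSH D u ∧
    ∀ c : ℝ, ∃ K : Set (E n), IsCompact K ∧ K ⊆ D ∧ {z ∈ D | u z ≤ c} ⊆ K

/-- The Poincaré distance of the unit disc, `½ log ((1+m)/(1-m))`, `m = |(a-b)/(1-ā b)|`. -/
noncomputable def poinc (a b : ℂ) : ℝ :=
  1 / 2 * Real.log ((1 + ‖(a - b) / (1 - (starRingEnd ℂ) a * b)‖) /
    (1 - ‖(a - b) / (1 - (starRingEnd ℂ) a * b)‖))

/-- `Chain D z w s`: there is a finite chain of analytic discs in `D` from `z` to `w` whose
Poincaré distances sum up to `s`. -/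
inductive Chain {n : ℕ} (D : Set (E n)) (z : E n) : E n → ℝ → Prop
  | refl : Chain D z z 0
  | step {w : E n} {s : ℝ} (f : ℂ → E n) (a b : ℂ) :
      Chain D z w s → DifferentiableOn ℂ f (ball 0 1) → MapsTo f (ball 0 1) D →
      a ∈ ball (0:ℂ) 1 → b ∈ ball (0:ℂ) 1 → f a = w → Chain D z (f b) (s + poinc a b)

/-- The Kobayashi (pseudo)distance of `D`. -/
noncomputable def kob {n : ℕ} (D : Set (E n)) (z w : E n) : ℝ := sInf {s : ℝ | Chain D z w s}

/-- The Euclidean distance to the boundary. -/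
noncomputable def dD {n : ℕ} (D : Set (E n)) (z : E n) : ℝ := infDist z (frontier D)

/-- `N(ζ)`, the number of `j` with `ζ_j = 0` and `D ∩ V_j = ∅`. -/
noncomputable def Nz {n : ℕ} (D : Set (E n)) (ζ : E n) : ℕ :=
  Nat.card {j : Fin n // ζ j = 0 ∧ ∀ z ∈ D, z j ≠ 0}

/-- The two estimates asked for in Q1, for `z ∈ D` near `ζ₀`. -/
def Estimates {n : ℕ} (D : Set (E n)) (z0 ζ0 : E n) : Prop :=
  ∃ U ∈ 𝓝 ζ0, ∃ C : ℝ, ∀ z ∈ D ∩ U,
    (Nz D ζ0 = 0 → -(1 / 2) * Real.log (dD D z) + C ≤ kob D z0 z) ∧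
    (1 ≤ Nz D ζ0 → 1 / 2 * Real.log (-Real.log (dD D z)) + C ≤ kob D z0 z)

/-! ### The domain -/

/-- The weight `|z₁| exp (1/(1-|z₂|))`. -/
noncomputable def wt (z : E 2) : ℝ := ‖z 0‖ * Real.exp (1 / (1 - ‖z 1‖))

/-- The domain. -/
def Dom : Set (E 2) := {z | ‖z 1‖ < 1 ∧ wt z < 1}

lemma cont_coord (i : Fin 2) : Continuous fun z : E 2 => ‖z i‖ := by
  fun_prop

lemma contOn_wt : ContinuousOn wt {z : E 2 | ‖z 1‖ < 1} := by
  unfold wt
  refine (cont_coord 0).continuousOn.mul ?_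
  refine Real.continuous_exp.comp_continuousOn ?_
  refine continuousOn_const.div (continuousOn_const.sub (cont_coord 1).continuousOn) ?_
  intro z hz
  have : ‖z 1‖ < 1 := hz
  linarith

lemma isOpen_dom : IsOpen Dom := by
  have h1 : IsOpen {z : E 2 | ‖z 1‖ < 1} := isOpen_lt (cont_coord 1) continuous_const
  exact contOn_wt.isOpen_inter_preimage h1 (isOpen_Iio (a := (1:ℝ)))

lemma complete_dom : CompleteReinhardt Dom := by
  intro z hz x hx
  obtain ⟨h1, h2⟩ := hz
  have hx1 : ‖x 1‖ < 1 := lt_of_le_of_lt (hx 1) h1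
  refine ⟨hx1, lt_of_le_of_lt ?_ h2⟩
  unfold wt
  have h3 : (1:ℝ) / (1 - ‖x 1‖) ≤ 1 / (1 - ‖z 1‖) :=
    one_div_le_one_div_of_le (by linarith) (by linarith [hx 1])
  exact mul_le_mul (hx 0) (Real.exp_le_exp.2 h3) (Real.exp_pos _).le (norm_nonneg _)

lemma reinhardt_dom : Reinhardt Dom := by
  intro z hz θ
  refine complete_dom z hz _ ?_
  intro j
  simp [Complex.norm_exp_ofReal_mul_I]

lemma zero_mem : (0 : E 2) ∈ Dom := by
  constructor
  · show ‖(0 : E 2) 1‖ < 1
    simp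
  · show wt (0 : E 2) < 1
    simp [wt]

lemma star_dom : StarConvex ℝ 0 Dom := by
  rw [starConvex_zero_iff]
  intro z hz a ha0 ha1
  refine complete_dom z hz _ ?_
  intro j
  have : (a • z) j = (a : ℂ) * z j := by simp
  rw [this, norm_mul, Complex.norm_real, Real.norm_of_nonneg ha0]
  exact mul_le_of_le_one_left (norm_nonneg _) ha1

lemma connected_dom : IsConnected Dom :=
  (star_dom.isPathConnected zero_mem).isConnected

lemma bounded_dom : Bornology.IsBounded Dom := by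
  rw [isBounded_iff_forall_norm_le]
  refine ⟨2, fun z hz => ?_⟩
  obtain ⟨h1, h2⟩ := hz
  have h3 : ‖z 0‖ ≤ wt z := by
    unfold wt
    refine le_mul_of_one_le_right (norm_nonneg _) (Real.one_le_exp ?_)
    exact (one_div_pos.2 (by linarith)).le
  rw [EuclideanSpace.norm_eq, Fin.sum_univ_two]
  refine Real.sqrt_le_iff.2 ⟨by norm_num, ?_⟩
  have h4 := norm_nonneg (z 0)
  have h5 := norm_nonneg (z 1)
  nlinarith

/-! ### Sub-mean value property -/

lemma submean (G : ℂ → ℂ) (hG : ∀ l : ℂ, ‖l‖ ≤ 1 → DifferentiableAt ℂ G l) (U : ℂ → ℝ)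
    (hU : Continuous fun t : ℝ => U (Complex.exp (t * I)))
    (h : ∀ l : ℂ, ‖l‖ = 1 → ‖G l‖ ≤ U l) :
    ‖G 0‖ ≤ (2 * Real.pi)⁻¹ * ∫ t in (0:ℝ)..(2 * Real.pi), U (Complex.exp (t * I)) := by
  have h1 : DiffContOnCl ℂ G (ball 0 |1|) := by
    apply DifferentiableOn.diffContOnCl
    intro l hl
    have : l ∈ closedBall (0:ℂ) 1 := by
      have := closure_ball_subset_closedBall hl
      simpa using this
    exact (hG l (by simpa using this)).differentiableWithinAt
  have h2 := h1.circleAverage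
  rw [Real.circleAverage_def] at h2
  rw [← h2, norm_smul, Real.norm_of_nonneg (by positivity)]
  refine mul_le_mul_of_nonneg_left ?_ (by positivity)
  refine intervalIntegral.norm_integral_le_of_norm_le (by positivity) ?_
    (hU.intervalIntegrable _ _)
  refine Eventually.of_forall fun t _ => ?_
  have h3 : circleMap 0 1 t = Complex.exp (t * I) := by simp [circleMap]
  rw [h3]
  exact h _ (Complex.norm_exp_ofReal_mul_I t)

lemma exists_unit (x : ℂ) : ∃ a : ℂ, ‖a‖ = 1 ∧ a * x = (‖x‖ : ℂ) := by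
  rcases eq_or_ne x 0 with h | h
  · exact ⟨1, by simp, by simp [h]⟩
  · have hx : ‖x‖ ≠ 0 := norm_ne_zero_iff.2 h
    refine ⟨(‖x‖ : ℂ) / x, by simp [hx], ?_⟩
    field_simp

/-- the exhaustion function -/
noncomputable def u0 (z : E 2) : ℝ := 1 / (1 - wt z) + 1 / (1 - ‖z 1‖)

lemma bound2 (a x : ℂ) (ha : ‖a‖ = 1) (hx : ‖x‖ < 1) :
    1 - a * x ≠ 0 ∧ ‖1 / (1 - a * x)‖ ≤ 1 / (1 - ‖x‖) := by
  have h1 : 1 - ‖x‖ ≤ ‖1 - a * x‖ := by
    have := norm_sub_norm_le (1:ℂ) (a * x)
    rwa [norm_one, norm_mul, ha, one_mul] at this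
  have h2 : 0 < 1 - ‖x‖ := by linarith
  refine ⟨fun h => ?_, ?_⟩
  · rw [h, norm_zero] at h1
    linarith
  · rw [norm_div, norm_one]
    exact one_div_le_one_div_of_le h2 h1

lemma bound1 (a b : ℂ) (ha : ‖a‖ = 1) (hb : ‖b‖ = 1) (z : E 2) (hz : z ∈ Dom) :
    1 - b * (z 0 * Complex.exp (1 / (1 - a * z 1))) ≠ 0 ∧
      ‖1 / (1 - b * (z 0 * Complex.exp (1 / (1 - a * z 1))))‖ ≤ 1 / (1 - wt z) := by
  obtain ⟨h1, h2⟩ := hz
  have h3 : ‖z 0 * Complex.exp (1 / (1 - a * z 1))‖ ≤ wt z := by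
    rw [norm_mul, Complex.norm_exp]
    unfold wt
    refine mul_le_mul_of_nonneg_left (Real.exp_le_exp.2 ?_) (norm_nonneg _)
    exact (Complex.re_le_norm _).trans (bound2 a (z 1) ha h1).2
  obtain ⟨h4, h5⟩ := bound2 b (z 0 * Complex.exp (1 / (1 - a * z 1))) hb (lt_of_le_of_lt h3 h2)
  refine ⟨h4, h5.trans ?_⟩
  exact one_div_le_one_div_of_le (by linarith) (by linarith)

lemma contOn_u0 : ContinuousOn u0 Dom := by
  unfold u0
  refine ContinuousOn.add ?_ ?_
  · refine continuousOn_const.div (continuousOn_const.sub (contOn_wt.mono fun z hz => hz.1)) ?_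
    intro z hz
    have := hz.2
    linarith
  · refine continuousOn_const.div (continuousOn_const.sub (cont_coord 1).continuousOn) ?_
    intro z hz
    have := hz.1
    linarith

lemma psh_u0 : ContPSH Dom u0 := by
  refine ⟨contOn_u0, ?_⟩
  intro z v hzv
  have hz : z ∈ Dom := by simpa using hzv 0 (by simp)
  obtain ⟨a, ha, hax⟩ := exists_unit (z 1)
  obtain ⟨b, hb, hbx⟩ := exists_unit (z 0)
  have hmem : ∀ t : ℝ, z + Complex.exp (t * I) • v ∈ Dom := fun t =>
    hzv _ (Complex.norm_exp_ofReal_mul_I t).le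
  have hcurve : Continuous fun t : ℝ => z + Complex.exp (t * I) • v := by fun_prop
  have hc1 : Continuous fun t : ℝ => 1 / (1 - wt (z + Complex.exp (t * I) • v)) := by
    refine continuous_const.div (continuous_const.sub ?_) ?_
    · exact contOn_wt.comp_continuous hcurve fun t => (hmem t).1
    · intro t
      have := (hmem t).2
      linarith
  have hc2 : Continuous fun t : ℝ => 1 / (1 - ‖(z + Complex.exp (t * I) • v) 1‖) := by
    refine continuous_const.div (continuous_const.sub ?_) ?_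
    · exact (cont_coord 1).comp hcurve
    · intro t
      have := (hmem t).1
      linarith
  have e1 : 1 / (1 - wt z) ≤ (2 * Real.pi)⁻¹ * ∫ t in (0:ℝ)..(2 * Real.pi),
      1 / (1 - wt (z + Complex.exp (t * I) • v)) := by
    have := submean (fun l => 1 / (1 - b * ((z + l • v) 0 *
      Complex.exp (1 / (1 - a * (z + l • v) 1))))) ?_
      (fun l => 1 / (1 - wt (z + l • v))) hc1 ?_
    · refine le_trans (le_of_eq ?_) this
      simp only [zero_smul, add_zero]
      have h1 : b * (z 0 * Complex.exp (1 / (1 - a * z 1))) = ((wt z : ℝ) : ℂ) := by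
        rw [hax, ← mul_assoc, hbx, wt]
        push_cast
        rfl
      have h2 : 0 < 1 - wt z := by
        have := hz.2
        linarith
      rw [h1, ← Complex.ofReal_one, ← Complex.ofReal_sub, ← Complex.ofReal_div, Complex.norm_real,
        Real.norm_of_nonneg (one_div_pos.2 h2).le]
    · intro l hl
      obtain ⟨k1, _⟩ := bound1 a b ha hb _ (hzv l hl)
      obtain ⟨k2, _⟩ := bound2 a ((z + l • v) 1) ha (hzv l hl).1
      have hd0 : DifferentiableAt ℂ (fun l : ℂ => (z + l • v) 0) l := by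
        simp only [PiLp.add_apply, PiLp.smul_apply, smul_eq_mul]
        fun_prop
      have hd1 : DifferentiableAt ℂ (fun l : ℂ => (z + l • v) 1) l := by
        simp only [PiLp.add_apply, PiLp.smul_apply, smul_eq_mul]
        fun_prop
      refine (differentiableAt_const _).div ((differentiableAt_const _).sub
        ((differentiableAt_const _).mul (hd0.mul (DifferentiableAt.cexp ?_)))) k1
      exact (differentiableAt_const _).div ((differentiableAt_const _).sub
        ((differentiableAt_const _).mul hd1)) k2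
    · intro l hl
      exact (bound1 a b ha hb _ (hzv l hl.le)).2
  have e2 : 1 / (1 - ‖z 1‖) ≤ (2 * Real.pi)⁻¹ * ∫ t in (0:ℝ)..(2 * Real.pi),
      1 / (1 - ‖(z + Complex.exp (t * I) • v) 1‖) := by
    have := submean (fun l => 1 / (1 - a * (z + l • v) 1)) ?_
      (fun l => 1 / (1 - ‖(z + l • v) 1‖)) hc2 ?_
    · refine le_trans (le_of_eq ?_) this
      simp only [zero_smul, add_zero]
      have h2 : 0 < 1 - ‖z 1‖ := by
        have := hz.1
        linarith
      rw [hax, ← Complex.ofReal_one, ← Complex.ofReal_sub, ← Complex.ofReal_div, Complex.norm_real,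
        Real.norm_of_nonneg (one_div_pos.2 h2).le]
    · intro l hl
      obtain ⟨k2, _⟩ := bound2 a ((z + l • v) 1) ha (hzv l hl).1
      have hd1 : DifferentiableAt ℂ (fun l : ℂ => (z + l • v) 1) l := by
        simp only [PiLp.add_apply, PiLp.smul_apply, smul_eq_mul]
        fun_prop
      exact (differentiableAt_const _).div ((differentiableAt_const _).sub
        ((differentiableAt_const _).mul hd1)) k2
    · intro l hl
      exact (bound2 a ((z + l • v) 1) ha (hzv l hl.le).1).2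
  have e3 : (∫ t in (0:ℝ)..(2 * Real.pi), u0 (z + Complex.exp (t * I) • v)) =
      (∫ t in (0:ℝ)..(2 * Real.pi), 1 / (1 - wt (z + Complex.exp (t * I) • v))) +
      ∫ t in (0:ℝ)..(2 * Real.pi), 1 / (1 - ‖(z + Complex.exp (t * I) • v) 1‖) := by
    unfold u0
    exact intervalIntegral.integral_add (hc1.intervalIntegrable _ _) (hc2.intervalIntegrable _ _)
  rw [e3, mul_add]
  exact add_le_add e1 e2

lemma pseudoconvex_dom : Pseudoconvex Dom := by
  refine ⟨u0, psh_u0, fun c => ?_⟩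
  set M := max c 1 with hM
  have hM1 : 1 ≤ M := le_max_right _ _
  have hM0 : 0 < M := by linarith
  set r := 1 - 1 / M with hr
  have hr1 : r < 1 := by
    have : 0 < 1 / M := by positivity
    linarith
  refine ⟨{z : E 2 | ‖z 1‖ ≤ r} ∩ wt ⁻¹' Iic r, ?_, ?_, ?_⟩
  · refine Metric.isCompact_of_isClosed_isBounded ?_ ?_
    · have h1 : IsClosed {z : E 2 | ‖z 1‖ ≤ r} := isClosed_le (cont_coord 1) continuous_const
      refine ContinuousOn.preimage_isClosed_of_isClosed (contOn_wt.mono ?_) h1 isClosed_Iic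
      intro z hz
      have : ‖z 1‖ ≤ r := hz
      exact lt_of_le_of_lt this hr1
    · refine bounded_dom.subset ?_
      rintro z ⟨h1, h2⟩
      exact ⟨lt_of_le_of_lt h1 hr1, lt_of_le_of_lt h2 hr1⟩
  · rintro z ⟨h1, h2⟩
    exact ⟨lt_of_le_of_lt h1 hr1, lt_of_le_of_lt h2 hr1⟩
  · rintro z ⟨⟨h1, h2⟩, h3⟩
    have p1 : 0 < 1 - wt z := by linarith
    have p2 : 0 < 1 - ‖z 1‖ := by linarith
    have q1 : 0 < 1 / (1 - wt z) := one_div_pos.2 p1
    have q2 : 0 < 1 / (1 - ‖z 1‖) := one_div_pos.2 p2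
    have hc : c ≤ M := le_max_left _ _
    unfold u0 at h3
    have r1 : 1 / (1 - wt z) ≤ M := by linarith
    have r2 : 1 / (1 - ‖z 1‖) ≤ M := by linarith
    have s1 : 1 / M ≤ 1 - wt z := by
      rw [div_le_iff₀ hM0]
      rw [div_le_iff₀ p1] at r1
      linarith
    have s2 : 1 / M ≤ 1 - ‖z 1‖ := by
      rw [div_le_iff₀ hM0]
      rw [div_le_iff₀ p2] at r2
      linarith
    refine ⟨?_, ?_⟩
    · show ‖z 1‖ ≤ r
      linarith
    · show wt z ≤ r
      linarith

/-! ### Points and distances -/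

/-- the point `(x, y)` -/
noncomputable def pt (x y : ℂ) : E 2 := !₂[x, y]

@[simp] lemma pt0 (x y : ℂ) : pt x y 0 = x := rfl
@[simp] lemma pt1 (x y : ℂ) : pt x y 1 = y := rfl

lemma dist_pt (x y x' y' : ℂ) : dist (pt x y) (pt x' y') = √(‖x - x'‖ ^ 2 + ‖y - y'‖ ^ 2) := by
  rw [EuclideanSpace.dist_eq, Fin.sum_univ_two]
  simp [dist_eq_norm]

lemma zt_mem {t : ℝ} (h0 : 0 < t) (h1 : t < 1) : pt 0 ((1 - t : ℝ) : ℂ) ∈ Dom := by
  refine ⟨?_, ?_⟩
  · show ‖((1 - t : ℝ) : ℂ)‖ < 1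
    rw [Complex.norm_real, Real.norm_of_nonneg (by linarith)]
    linarith
  · simp [wt]

lemma zeta_frontier : pt 0 1 ∈ frontier Dom := by
  rw [isOpen_dom.frontier_eq]
  refine ⟨?_, ?_⟩
  · rw [Metric.mem_closure_iff]
    intro e he
    set t := min (e / 2) (1 / 2) with ht
    have t0 : 0 < t := lt_min (by linarith) (by norm_num)
    have t1 : t ≤ 1 / 2 := min_le_right _ _
    have t2 : t ≤ e / 2 := min_le_left _ _
    refine ⟨_, zt_mem t0 (by linarith), ?_⟩
    rw [dist_pt]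
    have : (1 : ℂ) - ((1 - t : ℝ) : ℂ) = (t : ℂ) := by push_cast; ring
    rw [this, Complex.norm_real]
    simp only [sub_self, norm_zero]
    rw [Real.norm_of_nonneg t0.le]
    have : √(0 ^ 2 + t ^ 2) = t := by
      rw [zero_pow two_ne_zero, zero_add, Real.sqrt_sq t0.le]
    rw [this]
    linarith
  · intro h
    have := h.1
    simp at this

lemma cusp_frontier {t : ℝ} (h0 : 0 < t) (h1 : t < 1) :
    pt ((Real.exp (-(1 / t)) : ℝ) : ℂ) ((1 - t : ℝ) : ℂ) ∈ frontier Dom := by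
  rw [isOpen_dom.frontier_eq]
  have hn : ‖((1 - t : ℝ) : ℂ)‖ = 1 - t := by
    rw [Complex.norm_real, Real.norm_of_nonneg (by linarith)]
  refine ⟨?_, ?_⟩
  · rw [Metric.mem_closure_iff]
    intro e he
    set d := min (e / 2) (1 / 2) with hd
    have t0 : 0 < d := lt_min (by linarith) (by norm_num)
    have t1 : d ≤ 1 / 2 := min_le_right _ _
    have t2 : d ≤ e / 2 := min_le_left _ _
    refine ⟨pt (((1 - d) * Real.exp (-(1 / t)) : ℝ) : ℂ) ((1 - t : ℝ) : ℂ), ⟨?_, ?_⟩, ?_⟩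
    · show ‖((1 - t : ℝ) : ℂ)‖ < 1
      rw [hn]
      linarith
    · show ‖(((1 - d) * Real.exp (-(1 / t)) : ℝ) : ℂ)‖ * Real.exp (1 / (1 - ‖((1 - t : ℝ) : ℂ)‖)) < 1
      rw [hn, Complex.norm_real, Real.norm_of_nonneg (mul_nonneg (by linarith) (Real.exp_pos _).le),
        mul_assoc, ← Real.exp_add]
      have : -(1 / t) + 1 / (1 - (1 - t)) = 0 := by
        have : 1 - (1 - t) = t := by ring
        rw [this]
        ring
      rw [this, Real.exp_zero]
      linarith
    · rw [dist_pt, sub_self, norm_zero, zero_pow two_ne_zero, add_zero, Real.sqrt_sq (norm_nonneg _),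
        ← Complex.ofReal_sub, Complex.norm_real]
      have : Real.exp (-(1 / t)) - (1 - d) * Real.exp (-(1 / t)) = d * Real.exp (-(1 / t)) := by ring
      rw [this, Real.norm_of_nonneg (by positivity)]
      have h3 : Real.exp (-(1 / t)) ≤ 1 := by
        rw [Real.exp_le_one_iff]
        have : 0 < 1 / t := by positivity
        linarith
      nlinarith
  · rintro ⟨_, h⟩
    have : wt (pt ((Real.exp (-(1 / t)) : ℝ) : ℂ) ((1 - t : ℝ) : ℂ)) = 1 := by
      show ‖((Real.exp (-(1 / t)) : ℝ) : ℂ)‖ * Real.exp (1 / (1 - ‖((1 - t : ℝ) : ℂ)‖)) = 1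
      rw [hn, Complex.norm_real, Real.norm_of_nonneg (Real.exp_pos _).le, ← Real.exp_add]
      have : -(1 / t) + 1 / (1 - (1 - t)) = 0 := by
        have : 1 - (1 - t) = t := by ring
        rw [this]
        ring
      rw [this, Real.exp_zero]
    linarith

lemma dD_le {t : ℝ} (h0 : 0 < t) (h1 : t < 1) :
    dD Dom (pt 0 ((1 - t : ℝ) : ℂ)) ≤ Real.exp (-(1 / t)) := by
  refine (infDist_le_dist_of_mem (cusp_frontier h0 h1)).trans (le_of_eq ?_)
  rw [dist_pt, sub_self, norm_zero, zero_pow two_ne_zero, add_zero, Real.sqrt_sq (norm_nonneg _),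
    zero_sub, norm_neg, Complex.norm_real, Real.norm_of_nonneg (Real.exp_pos _).le]

lemma dD_pos {t : ℝ} (h0 : 0 < t) (h1 : t < 1) :
    0 < dD Dom (pt 0 ((1 - t : ℝ) : ℂ)) := by
  refine (isClosed_frontier.notMem_iff_infDist_pos ⟨_, zeta_frontier⟩).1 ?_
  intro h
  rw [isOpen_dom.frontier_eq] at h
  exact h.2 (zt_mem h0 h1)

lemma log_dD {t : ℝ} (h0 : 0 < t) (h1 : t < 1) :
    1 / t ≤ -Real.log (dD Dom (pt 0 ((1 - t : ℝ) : ℂ))) := by
  have := Real.log_le_log (dD_pos h0 h1) (dD_le h0 h1)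
  rw [Real.log_exp] at this
  linarith

lemma poinc_nonneg (a b : ℂ) : 0 ≤ poinc a b := by
  unfold poinc
  set m := ‖(a - b) / (1 - (starRingEnd ℂ) a * b)‖
  have hm : 0 ≤ m := norm_nonneg _
  refine mul_nonneg (by norm_num) ?_
  rw [← Real.log_abs, abs_div, abs_of_nonneg (by linarith : 0 ≤ 1 + m)]
  rcases eq_or_ne m 1 with h | h
  · simp [h]
  · refine Real.log_nonneg ?_
    rw [one_le_div (abs_pos.2 (sub_ne_zero.2 (Ne.symm h)))]
    rw [abs_le]
    constructor <;> linarith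

lemma chain_nonneg {n : ℕ} {D : Set (E n)} {z w : E n} {s : ℝ} (h : Chain D z w s) : 0 ≤ s := by
  induction h with
  | refl => exact le_rfl
  | step f a b _ _ _ _ _ _ ih => exact add_nonneg ih (poinc_nonneg a b)

lemma kob_le {t : ℝ} (h0 : 0 < t) (h1 : t < 1) :
    kob Dom 0 (pt 0 ((1 - t : ℝ) : ℂ)) ≤ 1 / 2 * Real.log (2 / t) := by
  have hc : Chain Dom 0 (pt 0 ((1 - t : ℝ) : ℂ)) (0 + poinc 0 ((1 - t : ℝ) : ℂ)) := by
    refine Chain.step (D := Dom) (z := 0) (w := 0) (s := 0) (fun l => pt 0 l) 0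
      ((1 - t : ℝ) : ℂ) Chain.refl ?_ ?_ ?_ ?_ ?_
    · have : (fun l : ℂ => pt 0 l) = fun l : ℂ => l • pt 0 1 := by
        funext l
        ext i
        fin_cases i <;> simp [pt]
      rw [this]
      fun_prop
    · intro l hl
      refine ⟨?_, ?_⟩
      · simpa using hl
      · simp [wt]
    · simp
    · rw [mem_ball_zero_iff, Complex.norm_real, Real.norm_of_nonneg (by linarith)]
      linarith
    · ext i
      fin_cases i <;> simp [pt]
  refine (csInf_le ⟨0, fun s hs => chain_nonneg hs⟩ hc).trans ?_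
  rw [zero_add, poinc]
  simp only [map_zero, zero_mul, sub_zero, zero_sub, div_one, norm_neg]
  rw [Complex.norm_real, Real.norm_of_nonneg (by linarith)]
  refine mul_le_mul_of_nonneg_left (Real.log_le_log ?_ ?_) (by norm_num)
  · refine div_pos (by linarith) (by linarith)
  · have : 1 - (1 - t) = t := by ring
    rw [this]
    exact div_le_div_of_nonneg_right (by linarith) h0.le

lemma nz_zero : Nz Dom (pt 0 1) = 0 := by
  unfold Nz
  have : IsEmpty {j : Fin 2 // (pt 0 1) j = 0 ∧ ∀ z ∈ Dom, z j ≠ 0} := by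
    refine ⟨?_⟩
    rintro ⟨j, hj, h⟩
    exact h 0 zero_mem (by simp)
  exact Nat.card_of_isEmpty

lemma final {U : Set (E 2)} (hU : U ∈ 𝓝 (pt 0 1)) {ε : ℝ} (hε : 0 < ε) (C : ℝ) :
    ∃ z ∈ Dom ∩ U, 0 < dD Dom z ∧ kob Dom 0 z < -ε * Real.log (dD Dom z) + C ∧
      kob Dom 0 z ≤ 1 / 2 * Real.log (-Real.log (dD Dom z)) + 1 / 2 * Real.log 2 := by
  obtain ⟨r, hr, hball⟩ := Metric.mem_nhds_iff.1 hU
  -- choose t
  set A : ℝ := 1 / 2 * (Real.log (2 / ε) - 1) - C with hA
  set x : ℝ := max (max 2 (2 / r)) ((2 * (|A| + 1)) / ε) with hx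
  have x2 : 2 ≤ x := (le_max_left _ _).trans (le_max_left _ _)
  have xr : 2 / r ≤ x := (le_max_right _ _).trans (le_max_left _ _)
  have xA : (2 * (|A| + 1)) / ε ≤ x := le_max_right _ _
  have x0 : 0 < x := by linarith
  set t : ℝ := 1 / x with ht
  have t0 : 0 < t := by positivity
  have t1 : t < 1 := by
    rw [ht, div_lt_one x0]
    linarith
  have htx : 1 / t = x := by rw [ht]; field_simp
  have tr : t < r := by
    have h1 : 2 ≤ x * r := by rwa [div_le_iff₀ hr] at xr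
    rw [ht, div_lt_iff₀ x0]
    linarith
  refine ⟨pt 0 ((1 - t : ℝ) : ℂ), ⟨zt_mem t0 t1, hball ?_⟩, dD_pos t0 t1, ?_, ?_⟩
  · rw [mem_ball, dist_pt]
    have : ((1 - t : ℝ) : ℂ) - 1 = ((-t : ℝ) : ℂ) := by push_cast; ring
    rw [this, Complex.norm_real, sub_self, norm_zero, zero_pow two_ne_zero, zero_add,
      Real.sqrt_sq (norm_nonneg _), norm_neg, Real.norm_of_nonneg t0.le]
    exact tr
  · have h1 := kob_le t0 t1
    have h2 := log_dD t0 t1
    rw [htx] at h2
    have h3 : Real.log (2 / t) = Real.log (ε * x) + Real.log (2 / ε) := by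
      rw [← Real.log_mul (by positivity) (by positivity)]
      congr 1
      rw [ht]
      field_simp
    have h4 : Real.log (ε * x) ≤ ε * x - 1 := Real.log_le_sub_one_of_pos (by positivity)
    have h5 : ε * x ≤ -ε * Real.log (dD Dom (pt 0 ((1 - t : ℝ) : ℂ))) := by
      have := mul_le_mul_of_nonneg_left h2 hε.le
      linarith
    have h6 : 2 * (|A| + 1) ≤ x * ε := by rwa [div_le_iff₀ hε] at xA
    have h7 : A ≤ |A| := le_abs_self A
    rw [h3] at h1
    have h8 : 1 / 2 * (Real.log (2 / ε) - 1) = A + C := by rw [hA]; ring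
    nlinarith
  · have h1 := kob_le t0 t1
    have h2 := log_dD t0 t1
    have h3 : Real.log (2 / t) = Real.log (1 / t) + Real.log 2 := by
      rw [← Real.log_mul (by positivity) (by positivity)]
      congr 1
      field_simp
    have h4 : Real.log (1 / t) ≤ Real.log (-Real.log (dD Dom (pt 0 ((1 - t : ℝ) : ℂ)))) :=
      Real.log_le_log (by positivity) h2
    rw [h3] at h1
    linarith

lemma not_estimates : ¬ Estimates Dom 0 (pt 0 1) := by
  rintro ⟨U, hU, C, h⟩
  obtain ⟨z, hz, _, h2, _⟩ := final hU (ε := 1 / 2) (by norm_num) C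
  have := (h z hz).1 nz_zero
  linarith

/-- Q1 is false.  There is a bounded complete pseudoconvex Reinhardt domain `D ⊆ ℂ²` such that for
the base point `0` and the boundary point `ζ₀ = (0,1)`, which has `N(ζ₀) = 0`, there are points of
`D` arbitrarily near `ζ₀` at which `k_D(0,z) < -ε log d_D(z) + C`, for every `ε > 0` and every `C`,
and even `k_D(0,z) ≤ ½ log (-log d_D(z)) + ½ log 2`.  In particular the estimates asked for fail. -/
theorem result :
    (∃ D : Set (E 2), IsOpen D ∧ IsConnected D ∧ Bornology.IsBounded D ∧ CompleteReinhardt D ∧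
      Reinhardt D ∧ Pseudoconvex D ∧ (0 : E 2) ∈ D ∧ (!₂[(0 : ℂ), 1] : E 2) ∈ frontier D ∧
      Nz D (!₂[(0 : ℂ), 1] : E 2) = 0 ∧
      ∀ U ∈ 𝓝 (!₂[(0 : ℂ), 1] : E 2), ∀ ε : ℝ, 0 < ε → ∀ C : ℝ, ∃ z ∈ D ∩ U,
        0 < dD D z ∧ kob D 0 z < -ε * Real.log (dD D z) + C ∧
        kob D 0 z ≤ 1 / 2 * Real.log (-Real.log (dD D z)) + 1 / 2 * Real.log 2) ∧
    ¬ ∀ n : ℕ, 1 ≤ n → ∀ D : Set (E n), IsOpen D → IsConnected D → Reinhardt D →
      Pseudoconvex D → ∀ z0 ∈ D, ∀ ζ0 ∈ frontier D, Estimates D z0 ζ0 := by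
  refine ⟨⟨Dom, isOpen_dom, connected_dom, bounded_dom, complete_dom, reinhardt_dom,
    pseudoconvex_dom, zero_mem, zeta_frontier, nz_zero, ?_⟩, ?_⟩
  · intro U hU ε hε C
    exact final hU hε C
  · intro h
    exact not_estimates (h 2 (by norm_num) Dom isOpen_dom connected_dom reinhardt_dom
      pseudoconvex_dom 0 zero_mem _ zeta_frontier)

end Pool.Agent.Results.MP_32da07_an.CuspDomain
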